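import Pool.Agent.helper73.DRS.CertAll
import Pool.Agent.helper23.DRS.AN3

/-! Last-iterate objective gap of relaxed Douglas-Rachford splitting: full positive answer to Q1,
also for `g` with values in `ℝ ∪ {+∞}`. -/

open Pool.Agent.helper73.DRS

/-- For all `n`, all finite convex `f` on `ℝⁿ`, `f` `L`-smooth, all proper convex
`g : ℝⁿ → ℝ ∪ {+∞}`, all `0 < γ < (2√2 - 1)/L` and `0 < lam < (1 + √5)/2`: relaxed
Douglas-Rachford iterates satisfy (`F = f + g`)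
`F(y N) ≤ F(xs) + ‖w 1 - ws‖² / (4 γ ((N - 1) lam + 1))` for every fixed point `ws`, every starting
point and every `N ≥ 1`. The case of a finite `g` is included (`helper73/DRS/Check.lean`). -/
theorem Pool.Agent.Results.MP_675b5c_an.LastIterate.result
    {n : ℕ} (f : EuclideanSpace ℝ (Fin n) → ℝ) (g : EuclideanSpace ℝ (Fin n) → EReal)
    (hf : ConvexOn ℝ Set.univ f) (hg : ProperConvex g)
    (L : ℝ) (hL : 0 < L) (hs : IsSmooth L f)
    (γ : ℝ) (hγ : 0 < γ) (hγL : γ < (2 * Real.sqrt 2 - 1) / L)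
    (lam : ℝ) (hlam : 0 < lam) (hphi : lam < (1 + Real.sqrt 5) / 2)
    (ws xs ys : EuclideanSpace ℝ (Fin n))
    (hxs : IsProx γ f ws xs) (hys : IsProxE γ g ((2 : ℝ) • xs - ws) ys)
    (hws : ws = ws + lam • (ys - xs))
    (N : ℕ) (hN : 1 ≤ N)
    (w x y : ℕ → EuclideanSpace ℝ (Fin n))
    (hx : ∀ k, 1 ≤ k → k ≤ N → IsProx γ f (w k) (x k))
    (hy : ∀ k, 1 ≤ k → k ≤ N → IsProxE γ g ((2 : ℝ) • x k - w k) (y k))
    (hw : ∀ k, 1 ≤ k → k < N → w (k + 1) = w k + lam • (y k - x k)) :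
    (f (y N) : EReal) + g (y N) ≤
      f xs + g xs + ((‖w 1 - ws‖ ^ 2 / (4 * γ * (((N : ℝ) - 1) * lam + 1)) : ℝ) : EReal) := by
  have h2 : Real.sqrt 2 * Real.sqrt 2 = 2 := Real.mul_self_sqrt (by norm_num)
  have h2' : 1 < Real.sqrt 2 := by
    rw [Real.lt_sqrt (by norm_num)]; norm_num
  have hgl : γ * L < 2 * Real.sqrt 2 - 1 := by rwa [lt_div_iff₀ hL] at hγL
  have hgl0 : 0 < γ * L := mul_pos hγ hL
  have hLt : (1 + 2 * Real.sqrt 2) / 7 ≤ 1 / (γ * L) := by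
    rw [div_le_div_iff₀ (by norm_num) hgl0]
    nlinarith
  obtain ⟨iL', hle, hC⟩ := cert_all hlam hphi hLt (N - 1)
  have hLs : (5469181 : ℝ) / 10 ^ 7 ≤ 1 / (γ * L) := by
    refine le_trans ?_ hLt
    have h3 : 141421335 / 100000000 ≤ Real.sqrt 2 := by
      apply Real.le_sqrt_of_sq_le; norm_num
    have : (5469181 : ℝ) / 10 ^ 7 ≤ (1 + 2 * (141421335 / 100000000)) / 7 := by norm_num
    linarith
  exact drs_of_cert_ext hN hf hg hL hs hγ hlam hLs hle hC w x y hx hy hw ws xs ys hxs hys hws
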